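import Pool.Agent.Helper35_XQ.Stmt

/-!
Squad XQ (MP_5b0138_an), module GI_BLO (helper75): the mass of the loops is the sum of the fluxes
up to a bad event (adapted from Helper53_AEU/Blc.lean).
-/

set_option autoImplicit false

namespace Pool.Agent.XQ.GI.H75B

open MeasureTheory Complex Filter Topology Pool.Agent.XQ.GI Pool.Agent.H62T Pool.Agent.H60K
open scoped ENNReal NNReal

variable {n : ℕ} [NeZero n]

/-! ### Rotation of the indices -/

/-- rotation of a configuration -/
def rotE (α : Type) (j : Fin n) : (Fin n → α) ≃ (Fin n → α) :=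
  (Equiv.addRight j).symm.arrowCongr (Equiv.refl α)

theorem rotE_apply {α : Type} (j : Fin n) (A : Fin n → α) : rotE α j A = fun i => A (i + j) := rfl

theorem integral_rot (j : Fin n) (f : (Fin n → ℂ) → ℝ) :
    ∫ x, f x = ∫ x : Fin n → ℂ, f (fun i => x (i + j)) := by
  have h := (volume_measurePreserving_piCongrLeft (fun _ : Fin n => ℂ) (Equiv.addRight j)).symm
  have h2 := h.integral_comp (MeasurableEquiv.measurableEmbedding _) f
  rw [← h2]
  rfl

theorem wO_rot (u : Fin 3 → ℂ) (h : Fin 3 → ℝ) (a : ℝ) (x : Fin n → ℂ)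
    (A : Fin n → Lb) (j : Fin n) :
    wO u h a (fun i => x (i + j)) (fun i => A (i + j)) = wO u h a x A := by
  unfold wO
  refine Fintype.prod_equiv (Equiv.addRight j) _ _ (fun i => ?_)
  simp only [Equiv.coe_addRight]
  rw [add_right_comm]

theorem FO_rot (A : Fin n → Lb) (j : Fin n) : FO (fun i => A (i + j)) 0 ↔ FO A j := by
  have e : (fun i : Fin (n - 1) => A (0 + Fin.ofNat n (i.1 + 1) + j))
      = fun i : Fin (n - 1) => A (j + Fin.ofNat n (i.1 + 1)) := by
    funext i
    rw [zero_add, add_comm]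
  simp only [FO]
  rw [e]

open Classical in
/-- The flux through block `j`. -/
theorem TI_rot (u : Fin 3 → ℂ) (h : Fin 3 → ℝ) (t : ℝ) (j : Fin n) : TI n u h t =
      ∑ A : Fin n → Lb, ∫ x : Fin n → ℂ, (c0 (x (j + 1)) - c0 (x j)) *
        (if FO A j then wO u h (t / n) x A else 0) := by
  unfold TI
  rw [← Equiv.sum_comp (rotE Lb j)]
  refine Finset.sum_congr rfl (fun A _ => ?_)
  rw [rotE_apply, integral_rot j]
  refine integral_congr_ae (Eventually.of_forall fun x => ?_)
  simp only [wO_rot, FO_rot, zero_add]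
  rw [add_comm 1 j]

theorem c0_cases (x : ℂ) : 0 ≤ c0 x ∧ c0 x ≤ 1 := by
  unfold c0
  split_ifs <;> norm_num

theorem c0_measurable : Measurable c0 := by
  unfold c0
  exact Measurable.ite (measurableSet_lt Complex.measurable_re measurable_const) measurable_const
    measurable_const

theorem wO_nonneg (hL : OrdStatement) (u : Fin 3 → ℂ) (h : Fin 3 → ℝ) (hu : ∀ s, ‖u s‖ = 1)
    (a : ℝ) (ha : 0 < a) (x : Fin n → ℂ) (A : Fin n → Lb) : 0 ≤ wO u h a x A := by
  unfold wO
  refine Finset.prod_nonneg fun j _ => ?_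
  exact ((hL u h hu).2 a (x j) (x (j + 1)) ha).2.1 (A j)

theorem wO_rz (hL : OrdStatement) (u : Fin 3 → ℂ) (h : Fin 3 → ℝ) (hu : ∀ s, ‖u s‖ = 1)
    (a : ℝ) (ha : 0 < a) (x : Fin n → ℂ) (A : Fin n → Lb) (hA : ¬ ∀ j, Rz (A j)) :
    wO u h a x A = 0 := by
  unfold wO
  push Not at hA
  obtain ⟨j, hj⟩ := hA
  refine Finset.prod_eq_zero (Finset.mem_univ j) ?_
  by_contra h0
  exact hj (((hL u h hu).2 a (x j) (x (j + 1)) ha).2.2.1 (A j) h0)

theorem comp_meas {X : Type} [MeasurableSpace X] (f : ℝ → ℂ → ℂ → ℝ)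
    (hf : Measurable fun p : ℝ × ℂ × ℂ => f p.1 p.2.1 p.2.2) (a : ℝ) (b c : X → ℂ)
    (hb : Measurable b) (hc : Measurable c) : Measurable fun x => f a (b x) (c x) :=
  hf.comp (measurable_const.prodMk (hb.prodMk hc))

omit [NeZero n] in
theorem prod_meas {X : Type} [MeasurableSpace X] (f : Fin n → X → ℝ) (h : ∀ j, Measurable (f j)) :
    Measurable fun x => ∏ j, f j x := Finset.measurable_fun_prod Finset.univ (fun j _ => h j)

theorem wO_measurable (hL : OrdStatement) (u : Fin 3 → ℂ) (h : Fin 3 → ℝ) (hu : ∀ s, ‖u s‖ = 1)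
    (a : ℝ) (A : Fin n → Lb) : Measurable fun x => wO u h a x A := by
  have h1 : ∀ j : Fin n, Measurable fun x : Fin n → ℂ => x j := fun j => by fun_prop
  have h3 := prod_meas (fun (j : Fin n) (x : Fin n → ℂ) => KO u h (A j) a (x j) (x (j + 1)))
    (fun j => comp_meas (KO u h (A j)) ((hL u h hu).1 (A j)) a _ _ (h1 j) (h1 (j + 1)))
  unfold wO
  exact h3

/-! ### The comparison -/

open Classical in
/-- the pointwise bound -/
theorem pointwise (hT : TeoStatement) (hC : CmbStatement) (A : Fin n → Lb) (x : Fin n → ℂ)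
    (w : ℝ) (hw : 0 ≤ w) (hn : 2 ≤ n) (hR : ∀ j, Rz (A j)) :
    |(if Lp (cp A) then w else 0) - ∑ j : Fin n, (c0 (x (j + 1)) - c0 (x j)) *
        (if FO A j then w else 0)| ≤
      (n + 1) * (if Lp (cp A) ∧ ¬ (Ad x (fun j => vs (A j)) ∧ Nl (fun j => vs (A j))) then w
        else 0) := by
  obtain ⟨-, -, hFL, -⟩ := hC n A hR
  by_cases hV : Lp (cp A)
  swap
  · have h1 : ∀ j, ¬ FO A j := fun j hj => hV (hFL j hj)
    simp [hV, h1]
  by_cases hG : Ad x (fun j => vs (A j)) ∧ Nl (fun j => vs (A j))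
  · have h1 := hT n (fun j => c0 (x j)) A hn hR (fun j hj => by
        have := hG.1.1 j hj
        unfold c0
        exact ⟨if_pos this.1, if_pos this.2⟩) (fun j hj => by
        have := hG.1.2 j hj
        unfold c0
        exact ⟨if_neg (not_lt.2 this.1), if_neg (not_lt.2 this.2)⟩) hG.2
    have h2 : ∑ j : Fin n, (c0 (x (j + 1)) - c0 (x j)) * (if FO A j then w else 0) =
        w * ∑ j, (c0 (x (j + 1)) - c0 (x j)) * (if FO A j then 1 else 0) := by
      rw [Finset.mul_sum]
      refine Finset.sum_congr rfl (fun j _ => ?_)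
      by_cases hj : FO A j
      · rw [if_pos hj, if_pos hj]; ring
      · rw [if_neg hj, if_neg hj]; ring
    rw [h2, h1, if_pos hV, if_pos hV, mul_one, sub_self, abs_zero, if_neg (fun h => h.2 hG),
      mul_zero]
  · rw [if_pos hV, if_pos ⟨hV, hG⟩]
    have h1 : |∑ j : Fin n, (c0 (x (j + 1)) - c0 (x j)) * (if FO A j then w else 0)| ≤ n * w := by
      calc |∑ j : Fin n, (c0 (x (j + 1)) - c0 (x j)) * (if FO A j then w else 0)| ≤
          ∑ j : Fin n, |(c0 (x (j + 1)) - c0 (x j)) * (if FO A j then w else 0)| :=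
            Finset.abs_sum_le_sum_abs _ _
        _ ≤ ∑ j : Fin n, w := by
          refine Finset.sum_le_sum fun j _ => ?_
          rw [abs_mul]
          have a1 := c0_cases (x (j + 1))
          have a2 := c0_cases (x j)
          have a3 : |c0 (x (j + 1)) - c0 (x j)| ≤ 1 := by
            rw [abs_le]; constructor <;> linarith
          have a4 : |(if FO A j then w else 0)| ≤ w := by
            split_ifs
            · rw [abs_of_nonneg hw]
            · rw [abs_zero]; exact hw
          calc |c0 (x (j + 1)) - c0 (x j)| * |(if FO A j then w else 0)| ≤ 1 * w :=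
                mul_le_mul a3 a4 (abs_nonneg _) zero_le_one
            _ = w := one_mul w
        _ = n * w := by
          rw [Finset.sum_const, Finset.card_univ, Fintype.card_fin, nsmul_eq_mul]
    calc |w - ∑ j : Fin n, (c0 (x (j + 1)) - c0 (x j)) * (if FO A j then w else 0)| ≤ |w| +
        |∑ j : Fin n, (c0 (x (j + 1)) - c0 (x j)) * (if FO A j then w else 0)| := abs_sub _ _
      _ ≤ w + n * w := by rw [abs_of_nonneg hw]; linarith
      _ = (n + 1) * w := by ring

open Classical in
/-- BLO -/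
theorem blo (hL : OrdStatement) (hT : TeoStatement) (hC : CmbStatement) : BloStatement := by
  intro u h hu n _ t hn ht hfin
  have ha : 0 < t / n := div_pos ht (by
    have : 0 < n := by omega
    exact_mod_cast this)
  have hWm : ∀ A, Measurable fun x : Fin n → ℂ => wO u h (t / n) x A :=
    wO_measurable hL u h hu _
  have hWn : ∀ (A : Fin n → Lb) (x : Fin n → ℂ), 0 ≤ wO u h (t / n) x A :=
    fun A x => wO_nonneg hL u h hu _ ha x A
  have hfin1 : ∀ A : Fin n → Lb, (∫⁻ x : Fin n → ℂ, if Lp (cp A) then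
      ENNReal.ofReal (wO u h (t / n) x A) else 0) ≠ ⊤ := by
    intro A hA
    apply hfin
    unfold MO
    exact ENNReal.sum_eq_top.2 ⟨A, Finset.mem_univ _, hA⟩
  have hint : ∀ A : Fin n → Lb, Lp (cp A) →
      Integrable (fun x : Fin n → ℂ => wO u h (t / n) x A) := by
    intro A hA
    have h1 := hfin1 A
    simp only [if_pos hA] at h1
    refine ⟨(hWm A).aestronglyMeasurable, ?_⟩
    rw [hasFiniteIntegral_iff_ofReal (Eventually.of_forall (hWn A))]
    exact lt_top_iff_ne_top.2 h1
  have hFL : ∀ (A : Fin n → Lb) (j : Fin n), FO A j → ¬ Lp (cp A) →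
      ∀ x : Fin n → ℂ, wO u h (t / n) x A = 0 := by
    intro A j hj hV x
    apply wO_rz hL u h hu _ ha
    intro hR
    exact hV ((hC n A hR).2.2.1 j hj)
  -- the mass
  have hVM : (MO (n := n) u h (t / n) (fun _ A => Lp (cp A))).toReal =
      ∑ A : Fin n → Lb, ∫ x : Fin n → ℂ, (if Lp (cp A) then wO u h (t / n) x A else 0) := by
    unfold MO
    rw [ENNReal.toReal_sum (fun A _ => hfin1 A)]
    refine Finset.sum_congr rfl (fun A _ => ?_)
    by_cases hA : Lp (cp A)
    · simp only [if_pos hA]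
      rw [integral_eq_lintegral_of_nonneg_ae (Eventually.of_forall (hWn A))
        (hWm A).aestronglyMeasurable]
    · simp only [if_neg hA]
      rw [lintegral_zero, integral_zero, ENNReal.toReal_zero]
  -- the fluxes
  have hchm : ∀ j : Fin n, Measurable fun x : Fin n → ℂ => c0 (x j) := fun j =>
    c0_measurable.comp (measurable_pi_apply j)
  have hfint : ∀ (A : Fin n → Lb) (j : Fin n),
      Integrable (fun x : Fin n → ℂ => (c0 (x (j + 1)) - c0 (x j)) *
        (if FO A j then wO u h (t / n) x A else 0)) := by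
    intro A j
    by_cases hA : FO A j
    · simp only [if_pos hA]
      by_cases hV : Lp (cp A)
      · refine (hint A hV).mono
          ((((hchm (j + 1)).sub (hchm j)).mul (hWm A)).aestronglyMeasurable)
          (Eventually.of_forall fun x => ?_)
        rw [norm_mul]
        have a1 := c0_cases (x (j + 1))
        have a2 := c0_cases (x j)
        have a3 : ‖c0 (x (j + 1)) - c0 (x j)‖ ≤ 1 := by
          rw [Real.norm_eq_abs, abs_le]; constructor <;> linarith
        exact mul_le_of_le_one_left (norm_nonneg _) a3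
      · have h0 : (fun x : Fin n → ℂ => (c0 (x (j + 1)) - c0 (x j)) * wO u h (t / n) x A)
            = fun _ => 0 := by
          funext x
          rw [hFL A j hA hV x, mul_zero]
        rw [h0]
        exact integrable_zero _ _ _
    · simp only [if_neg hA, mul_zero]
      exact integrable_zero _ _ _
  have hTC : (n : ℝ) * TI n u h t =
      ∑ A : Fin n → Lb, ∫ x : Fin n → ℂ, ∑ j : Fin n,
        (c0 (x (j + 1)) - c0 (x j)) * (if FO A j then wO u h (t / n) x A else 0) := by
    have h1 : (n : ℝ) * TI n u h t = ∑ j : Fin n, TI n u h t := by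
      rw [Finset.sum_const, Finset.card_univ, Fintype.card_fin, nsmul_eq_mul]
    rw [h1, Finset.sum_congr rfl fun j _ => TI_rot u h t j, Finset.sum_comm]
    refine Finset.sum_congr rfl (fun A _ => ?_)
    rw [integral_finsetSum _ (fun j _ => hfint A j)]
  have hVint : ∀ A : Fin n → Lb,
      Integrable (fun x : Fin n → ℂ => if Lp (cp A) then wO u h (t / n) x A else 0) := by
    intro A
    by_cases hA : Lp (cp A)
    · simp only [if_pos hA]; exact hint A hA
    · simp only [if_neg hA]; exact integrable_zero _ _ _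
  have hdiff : (MO (n := n) u h (t / n) (fun _ A => Lp (cp A))).toReal - n * TI n u h t =
      ∑ A : Fin n → Lb, ∫ x : Fin n → ℂ,
        ((if Lp (cp A) then wO u h (t / n) x A else 0) - ∑ j : Fin n,
        (c0 (x (j + 1)) - c0 (x j)) * (if FO A j then wO u h (t / n) x A else 0)) := by
    rw [hVM, hTC, ← Finset.sum_sub_distrib]
    refine Finset.sum_congr rfl (fun A _ => ?_)
    rw [integral_sub (hVint A) (integrable_finsetSum _ fun j _ => hfint A j)]
  rw [hdiff]
  -- the bad event
  have hbad : ∀ A : Fin n → Lb, (∫⁻ x : Fin n → ℂ, if Lp (cp A) ∧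
      ¬ (Ad x (fun j => vs (A j)) ∧ Nl (fun j => vs (A j))) then
        ENNReal.ofReal (wO u h (t / n) x A) else 0) ≠ ⊤ := by
    intro A
    refine ne_top_of_le_ne_top (hfin1 A) (lintegral_mono fun x => ?_)
    by_cases h1 : Lp (cp A) ∧ ¬ (Ad x (fun j => vs (A j)) ∧ Nl (fun j => vs (A j)))
    · rw [if_pos h1, if_pos h1.1]
    · rw [if_neg h1]; exact zero_le
  have hMs : (MO (n := n) u h (t / n) (fun x A => Lp (cp A) ∧
      ¬ (Ad x (fun j => vs (A j)) ∧ Nl (fun j => vs (A j))))).toReal = ∑ A : Fin n → Lb,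
      (∫⁻ x : Fin n → ℂ, if Lp (cp A) ∧
      ¬ (Ad x (fun j => vs (A j)) ∧ Nl (fun j => vs (A j))) then
        ENNReal.ofReal (wO u h (t / n) x A) else 0).toReal := by
    rw [← ENNReal.toReal_sum (fun A _ => hbad A)]
    congr 1
    unfold MO
    refine Finset.sum_congr rfl (fun A _ => lintegral_congr fun x => ?_)
    by_cases h1 : Lp (cp A) ∧ ¬ (Ad x (fun j => vs (A j)) ∧ Nl (fun j => vs (A j)))
    · exact (if_pos h1).trans (if_pos h1).symm
    · exact (if_neg h1).trans (if_neg h1).symm
  rw [hMs, Finset.mul_sum]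
  refine (Finset.abs_sum_le_sum_abs _ _).trans (Finset.sum_le_sum fun A _ => ?_)
  have hn1 : (0 : ℝ) ≤ n + 1 := by positivity
  have hptw : ∀ x : Fin n → ℂ, ENNReal.ofReal ‖(if Lp (cp A) then wO u h (t / n) x A else 0)
      - ∑ j : Fin n, (c0 (x (j + 1)) - c0 (x j)) *
        (if FO A j then wO u h (t / n) x A else 0)‖ ≤
      ENNReal.ofReal (n + 1) * (if Lp (cp A) ∧
        ¬ (Ad x (fun j => vs (A j)) ∧ Nl (fun j => vs (A j))) then
        ENNReal.ofReal (wO u h (t / n) x A) else 0) := by
    intro x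
    by_cases hR : ∀ j, Rz (A j)
    · have h1 := pointwise hT hC A x (wO u h (t / n) x A) (hWn A x) hn hR
      rw [Real.norm_eq_abs]
      refine (ENNReal.ofReal_le_ofReal h1).trans ?_
      rw [ENNReal.ofReal_mul hn1]
      split_ifs with h2
      · exact le_rfl
      · rw [ENNReal.ofReal_zero]
    · have h0 := wO_rz hL u h hu _ ha x A hR
      simp [h0]
  have hkey := norm_integral_le_lintegral_norm (μ := volume) (fun x : Fin n → ℂ =>
    ((if Lp (cp A) then wO u h (t / n) x A else 0) - ∑ j : Fin n,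
        (c0 (x (j + 1)) - c0 (x j)) * (if FO A j then wO u h (t / n) x A else 0)))
  rw [Real.norm_eq_abs] at hkey
  refine hkey.trans ?_
  have hle := lintegral_mono (μ := volume) hptw
  rw [lintegral_const_mul' _ _ ENNReal.ofReal_ne_top] at hle
  have htop : ENNReal.ofReal (n + 1) * (∫⁻ x : Fin n → ℂ, if Lp (cp A) ∧
      ¬ (Ad x (fun j => vs (A j)) ∧ Nl (fun j => vs (A j))) then
        ENNReal.ofReal (wO u h (t / n) x A) else 0) ≠ ⊤ :=
    ENNReal.mul_ne_top ENNReal.ofReal_ne_top (hbad A)
  refine (ENNReal.toReal_mono htop hle).trans ?_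
  rw [ENNReal.toReal_mul, ENNReal.toReal_ofReal hn1]

end Pool.Agent.XQ.GI.H75B
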