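import Pool.Agent.Helper35_XQ.Stmt

/-!
Squad XQ (MP_5b0138_an), module GI_CMB (helper75): combinatorics of blocks.
-/

set_option autoImplicit false

namespace Pool.Agent.XQ.GI.H75

open Pool.Agent.XQ.GI Pool.Agent.H62T Pool.Agent.H60K

/-- composition of a list of labels -/
def cl (F : List Lb) : Lb := fun w => F.foldl (fun v f => f v) w

theorem cl_cons (f : Lb) (F : List Lb) (w : Wd) : cl (f :: F) w = cl F (f w) := rfl

theorem cl_append (F G : List Lb) (w : Wd) : cl (F ++ G) w = cl G (cl F w) := by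
  simp only [cl, List.foldl_append]

theorem rz_id : Rz (fun w => w) := by
  refine ⟨[∅], by simp, ?_⟩
  funext w
  apply Subtype.ext
  obtain ⟨l, hl⟩ := w
  cases l with
  | nil => simp [run, rd]
  | cons a l => simp [run, rd]

theorem cl_rz (h : LstStatement) (F : List Lb) (hF : ∀ f ∈ F, Rz f) : Rz (cl F) := by
  induction F with
  | nil => exact rz_id
  | cons f F ih =>
    exact h.1 f (cl F) (hF f (by simp)) (ih fun g hg => hF g (by simp [hg]))

theorem cl_vs (h : LstStatement) (F : List Lb) (hF : ∀ f ∈ F, Rz f) (s : Fin 3) :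
    s ∈ vs (cl F) ↔ ∃ f ∈ F, s ∈ vs f := by
  induction F with
  | nil =>
    simp only [List.not_mem_nil, false_and, exists_false, iff_false]
    intro hs
    simp only [vs, Finset.mem_filter] at hs
    have := congrArg Subtype.val hs.2
    simp [cl, sg, em] at this
  | cons f F ih =>
    have h2 := h.2.2.2.2.2.1 f (cl F) (hF f (by simp))
      (cl_rz h F fun g hg => hF g (by simp [hg]))
    have h3 : vs (cl (f :: F)) = vs f ∪ vs (cl F) := h2
    rw [h3, Finset.mem_union, ih fun g hg => hF g (by simp [hg])]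
    simp

theorem pre (l : List (Finset (Fin 3))) : ∀ (u w : Wd) (z : List (Fin 3)), w.1 = u.1 ++ z →
    run l u = em → (run l w).1 <:+ z := by
  induction l with
  | nil =>
    intro u w z hw hu
    have h1 : u.1 = [] := congrArg Subtype.val hu
    have h2 : (run [] w).1 = w.1 := rfl
    rw [h2, hw, h1]
    simp
  | cons c l ih =>
    intro u w z hw hu
    have h1 : (run (c :: l) w).1 = (run l (rd c w)).1 := rfl
    have h2 : run l (rd c u) = em := hu
    have h3 : (rd c w).1 = w.1.dropWhile (fun s => decide (s ∈ c)) := rfl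
    have h4 : (rd c u).1 = u.1.dropWhile (fun s => decide (s ∈ c)) := rfl
    rw [h1]
    by_cases he : (rd c u).1 = []
    · have h5 : (rd c w).1 = z.dropWhile (fun s => decide (s ∈ c)) := by
        rw [h3, hw, List.dropWhile_append, ← h4, he]
        simp
      have h6 : ∀ (l : List (Finset (Fin 3))) (w : Wd), (run l w).1 <:+ w.1 := by
        intro l
        induction l with
        | nil => intro w; exact List.suffix_rfl
        | cons c l ih =>
          intro w
          exact (ih (rd c w)).trans (List.dropWhile_suffix _)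
      refine (h6 l (rd c w)).trans ?_
      rw [h5]
      exact List.dropWhile_suffix _
    · refine ih (rd c u) (rd c w) z ?_ h2
      rw [h3, hw, List.dropWhile_append, ← h4]
      simp [he]

theorem suffix3 (a b c : Fin 3) (v : List (Fin 3)) (h : v <:+ [a, b, c]) :
    v = [a, b, c] ∨ v = [b, c] ∨ v = [c] ∨ v = [] := by
  rcases List.suffix_cons_iff.1 h with h | h
  · exact Or.inl h
  rcases List.suffix_cons_iff.1 h with h | h
  · exact Or.inr (Or.inl h)
  rcases List.suffix_cons_iff.1 h with h | h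
  · exact Or.inr (Or.inr (Or.inl h))
  · exact Or.inr (Or.inr (Or.inr (List.suffix_nil.1 h)))

theorem em_of (w : Wd) (h : w.1 = []) : w = em := Subtype.ext h

theorem rot1 (h : LstStatement) (f g : Lb) (hf : Rz f) (hg : Rz g) (a b c : Fin 3)
    (W1 W2 W3 : Wd) (h1 : W1.1 = [a, b, c]) (h2 : W2.1 = [b, c, a]) (h3 : W3.1 = [c, a, b])
    (hW : g (f W1) = em) : f (g W1) = em ∨ f (g W2) = em ∨ f (g W3) = em := by
  obtain ⟨_, hem, hsuf, hmono, hsub, _⟩ := h
  have hd : [a, b, c].Nodup := h1 ▸ W1.2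
  have hab : a ≠ b := by
    intro e; subst e; simp at hd
  have hac : a ≠ c := by
    intro e; subst e; simp at hd
  have hbc : b ≠ c := by
    intro e; subst e; simp at hd
  obtain ⟨lg, hlg, rfl⟩ := hg
  have h4 := hsuf f hf W1
  rw [h1] at h4
  rcases suffix3 a b c _ h4 with h5 | h5 | h5 | h5
  · have h6 : f W1 = W1 := Subtype.ext (h5.trans h1.symm)
    rw [h6] at hW
    left
    rw [hW, hem f hf]
  · right; left
    have h6 : (run lg W2).1 <:+ [a] := pre lg (f W1) W2 [a] (by rw [h5, h2]; rfl) hW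
    have h7 : (f (sg a)).1 <:+ [a] := hsuf f hf (sg a)
    have h8 : (f (sg a)).1.Sublist [b, c] := by
      have := hsub f hf (sg a) W1 (by rw [h1]; simp [sg])
      rwa [h5] at this
    have h9 : (f (sg a)).1 = [] := by
      rcases List.suffix_cons_iff.1 h7 with h9 | h9
      · rw [h9] at h8
        have := h8.subset (List.mem_singleton_self a)
        simp [hab, hac] at this
      · exact List.suffix_nil.1 h9
    have h10 := hmono f hf (run lg W2) (sg a) h6
    rw [h9] at h10
    exact em_of _ (List.suffix_nil.1 h10)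
  · right; right
    have h6 : (run lg W3).1 <:+ [a, b] := pre lg (f W1) W3 [a, b] (by rw [h5, h3]; rfl) hW
    have hab' : [a, b].Nodup := by simp [hab]
    have h7 : (f ⟨[a, b], hab'⟩).1 <:+ [a, b] := hsuf f hf ⟨[a, b], hab'⟩
    have h8 : (f ⟨[a, b], hab'⟩).1.Sublist [c] := by
      have := hsub f hf ⟨[a, b], hab'⟩ W1 (by rw [h1]; simp)
      rwa [h5] at this
    have h9 : (f ⟨[a, b], hab'⟩).1 = [] := by
      rcases List.suffix_cons_iff.1 h7 with h9 | h9
      · rw [h9] at h8
        have := h8.length_le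
        simp at this
      · rcases List.suffix_cons_iff.1 h9 with h9 | h9
        · rw [h9] at h8
          have := h8.subset (List.mem_singleton_self b)
          simp [hbc] at this
        · exact List.suffix_nil.1 h9
    have h10 := hmono f hf (run lg W3) ⟨[a, b], hab'⟩ h6
    rw [h9] at h10
    exact em_of _ (List.suffix_nil.1 h10)
  · left
    have h6 : (run lg W1).1 <:+ W1.1 := hsuf (run lg) ⟨lg, hlg, rfl⟩ W1
    have h7 := hmono f hf (run lg W1) W1 h6
    rw [h5] at h7
    exact em_of _ (List.suffix_nil.1 h7)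

theorem lp_rot (h : LstStatement) (f g : Lb) (hf : Rz f) (hg : Rz g)
    (hL : Lp (fun w => g (f w))) : Lp (fun w => f (g w)) := by
  rcases hL with h1 | h1 | h1
  · exact rot1 h f g hf hg 0 1 2 w012 w120 w201 rfl rfl rfl h1
  · rcases rot1 h f g hf hg 1 2 0 w120 w201 w012 rfl rfl rfl h1 with h2 | h2 | h2
    · exact Or.inr (Or.inl h2)
    · exact Or.inr (Or.inr h2)
    · exact Or.inl h2
  · rcases rot1 h f g hf hg 2 0 1 w201 w012 w120 rfl rfl rfl h1 with h2 | h2 | h2
    · exact Or.inr (Or.inr h2)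
    · exact Or.inl h2
    · exact Or.inr (Or.inl h2)

theorem rot_one (h : LstStatement) (m : ℕ) (A : Fin (m + 1) → Lb) (hA : ∀ j, Rz (A j)) :
    Lp (cp (fun i => A (i + 1))) ↔ Lp (cp A) := by
  have e1 : cp A = fun w => cl (List.ofFn fun i : Fin m => A i.succ) (A 0 w) := by
    funext w
    simp only [cp, cl, List.ofFn_succ, List.foldl_cons]
  have e2 : cp (fun i => A (i + 1)) = fun w => A 0 (cl (List.ofFn fun i : Fin m => A i.succ) w) := by
    funext w
    simp only [cp, cl]
    rw [List.ofFn_succ']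
    simp only [Fin.coeSucc_eq_succ, Fin.last_add_one, List.concat_eq_append, List.foldl_append,
      List.foldl_cons, List.foldl_nil]
  have h1 : Rz (cl (List.ofFn fun i : Fin m => A i.succ)) := by
    refine cl_rz h _ ?_
    intro f hf
    obtain ⟨i, rfl⟩ := (List.mem_ofFn' _ _).1 hf
    exact hA _
  rw [e1, e2]
  exact ⟨lp_rot h _ _ h1 (hA 0), lp_rot h _ _ (hA 0) h1⟩

theorem rot_all (h : LstStatement) (m : ℕ) (A : Fin (m + 1) → Lb) (hA : ∀ j, Rz (A j))
    (j : Fin (m + 1)) : Lp (cp (fun i => A (i + j))) ↔ Lp (cp A) := by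
  induction j using Fin.induction with
  | zero => simp only [add_zero]
  | succ k ih =>
    rw [← ih, ← rot_one h m (fun i => A (i + k.castSucc)) fun j => hA _]
    have : (fun i : Fin (m + 1) => A (i + k.succ)) = fun i => A (i + 1 + k.castSucc) := by
      funext i
      congr 1
      rw [← Fin.coeSucc_eq_succ, add_assoc, add_comm k.castSucc 1]
    rw [this]

/-- first hit -/
theorem hit (h : LstStatement) (F : List Lb) : (∀ f ∈ F, Rz f) → ∀ (w w' : Wd) (a : Fin 3),
    w.1 = a :: w'.1 → cl F w = em →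
    ∃ (i : ℕ) (hi : i < F.length), a ∈ vs (F[i]) ∧ cl (F.drop i) w' = em := by
  induction F with
  | nil =>
    intro _ w w' a hw he
    have : w.1 = [] := congrArg Subtype.val he
    rw [this] at hw
    exact absurd hw (by simp)
  | cons f F ih =>
    intro hF w w' a hw he
    have hf : Rz f := hF f (by simp)
    have hF' : ∀ g ∈ F, Rz g := fun g hg => hF g (by simp [hg])
    by_cases hfw : f w = w
    · have he' : cl F w = em := by
        have := he
        rw [cl_cons, hfw] at this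
        exact this
      obtain ⟨i, hi, h1, h2⟩ := ih hF' w w' a hw he'
      exact ⟨i + 1, by simpa using hi, by simpa using h1, by simpa using h2⟩
    · have h1 : (f w).1 <:+ w'.1 := by
        have h2 := h.2.2.1 f hf w
        rw [hw] at h2
        rcases List.suffix_cons_iff.1 h2 with h3 | h3
        · exact absurd (Subtype.ext (h3.trans hw.symm)) hfw
        · exact h3
      have hna : a ∉ w'.1 := by
        have := w.2
        rw [hw] at this
        exact (List.nodup_cons.1 this).1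
      refine ⟨0, by simp, ?_, ?_⟩
      · simp only [List.getElem_cons_zero, vs, Finset.mem_filter, Finset.mem_univ, true_and]
        have h2 : (f (sg a)).1 <:+ [a] := h.2.2.1 f hf (sg a)
        have h3 := h.2.2.2.2.1 f hf (sg a) w (by rw [hw]; simp [sg])
        rcases List.suffix_cons_iff.1 h2 with h4 | h4
        · rw [h4] at h3
          exact absurd (h1.subset (h3.subset (List.mem_singleton_self a))) hna
        · exact em_of _ (List.suffix_nil.1 h4)
      · have hcl := cl_rz h (f :: F) hF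
        have h2 := h.2.2.2.1 (cl (f :: F)) hcl w' w (by rw [hw]; exact List.suffix_cons _ _)
        rw [he] at h2
        exact em_of _ (List.suffix_nil.1 h2)

theorem hit3 (h : LstStatement) (n : ℕ) (A : Fin n → Lb) (hA : ∀ j, Rz (A j)) (a b c : Fin 3)
    (W : Wd) (hW : W.1 = [a, b, c]) (he : cp A W = em) :
    ∃ x y z : Fin n, x ≤ y ∧ y ≤ z ∧ a ∈ vs (A x) ∧ b ∈ vs (A y) ∧ c ∈ vs (A z) := by
  have hd : [a, b, c].Nodup := hW ▸ W.2
  have hbc : [b, c].Nodup := (List.nodup_cons.1 hd).2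
  have hF : ∀ f ∈ List.ofFn A, Rz f := by
    intro f hf
    obtain ⟨i, rfl⟩ := (List.mem_ofFn' _ _).1 hf
    exact hA _
  obtain ⟨i, hi, h1, h2⟩ := hit h (List.ofFn A) hF W ⟨[b, c], hbc⟩ a hW he
  obtain ⟨j, hj, h3, h4⟩ := hit h ((List.ofFn A).drop i)
    (fun f hf => hF f (List.mem_of_mem_drop hf)) ⟨[b, c], hbc⟩ (sg c) b rfl h2
  obtain ⟨k, hk, h5, h6⟩ := hit h (((List.ofFn A).drop i).drop j)
    (fun f hf => hF f (List.mem_of_mem_drop (List.mem_of_mem_drop hf))) (sg c) em c rfl h4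
  simp only [List.length_drop, List.length_ofFn] at hi hj hk
  simp only [List.getElem_drop, List.getElem_ofFn] at h1 h3 h5
  refine ⟨⟨i, hi⟩, ⟨i + j, by omega⟩, ⟨i + (j + k), by omega⟩, ?_, ?_, h1, h3, h5⟩
  · simp [Fin.le_def]
  · simp [Fin.le_def]

/-- cyclic order -/
def Or3 {n : ℕ} (x y z : Fin n) : Prop := (x < y ∧ y < z) ∨ (y < z ∧ z < x) ∨ (z < x ∧ x < y)

theorem sub_val {n : ℕ} (x y : Fin n) :
    ((y - x : Fin n) : ℕ) = if (x : ℕ) ≤ y then (y : ℕ) - x else n + y - x := by
  split_ifs with h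
  · exact Fin.coe_sub_iff_le.2 h
  · exact Fin.coe_sub_iff_lt.2 (by rw [Fin.lt_def]; omega)

theorem add_ofNat {n : ℕ} [NeZero n] (x y : Fin n) : x + Fin.ofNat n (y - x : Fin n).1 = y := by
  rw [Fin.ofNat_val_eq_self]
  exact add_sub_cancel x y

theorem db1 {n : ℕ} [NeZero n] (B : Fin n → Finset (Fin 3)) (p q r : Fin 3) (hpq : p ≠ q)
    (hqr : q ≠ r) (hrp : r ≠ p) (x x' y z : Fin n) (hx : p ∈ B x) (hx' : p ∈ B x') (hy : q ∈ B y)
    (hz : r ∈ B z) (h1 : Or3 x y z) (h2 : ¬ Or3 x' y z) (hy' : x' ≠ y) (hz' : x' ≠ z) : Db B := by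
  refine ⟨p, q, r, x, (y - x : Fin n).1, (x' - x : Fin n).1, (z - x : Fin n).1, hpq, hqr, hrp,
    ?_, ?_, ?_, hx, ?_, ?_, ?_⟩
  · rw [sub_val, sub_val]
    simp only [Or3, Fin.lt_def, ne_eq, Fin.ext_iff] at h1 h2 hy' hz'
    have := x.2
    have := y.2
    have := z.2
    have := x'.2
    split_ifs <;> omega
  · rw [sub_val, sub_val]
    simp only [Or3, Fin.lt_def, ne_eq, Fin.ext_iff] at h1 h2 hy' hz'
    have := x.2
    have := y.2
    have := z.2
    have := x'.2
    split_ifs <;> omega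
  · exact (z - x : Fin n).2.le
  · rw [add_ofNat]; exact hy
  · rw [add_ofNat]; exact hx'
  · rw [add_ofNat]; exact hz

theorem or_rot {n : ℕ} (x y z : Fin n) : Or3 x y z ↔ Or3 y z x := by
  simp only [Or3]
  tauto

theorem cmb (h : LstStatement) : CmbStatement := by
  intro n _ A hA
  have hF : ∀ f ∈ List.ofFn A, Rz f := by
    intro f hf
    obtain ⟨i, rfl⟩ := (List.mem_ofFn' _ _).1 hf
    exact hA _
  have c1 : Rz (cp A) := cl_rz h _ hF
  have c2 : ∀ s, s ∈ vs (cp A) ↔ ∃ j, s ∈ vs (A j) := by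
    intro s
    have := cl_vs h (List.ofFn A) hF s
    rw [show cp A = cl (List.ofFn A) from rfl, this]
    constructor
    · rintro ⟨f, hf, hs⟩
      obtain ⟨i, rfl⟩ := (List.mem_ofFn' _ _).1 hf
      exact ⟨i, hs⟩
    · rintro ⟨j, hs⟩
      exact ⟨A j, (List.mem_ofFn' _ _).2 ⟨j, rfl⟩, hs⟩
  have c7 : ∀ j : Fin n, Lp (cp (fun i => A (i + j))) ↔ Lp (cp A) := by
    intro j
    obtain ⟨m, rfl⟩ := Nat.exists_eq_succ_of_ne_zero (NeZero.ne n)
    exact rot_all h m A hA j
  have c6 : ∀ j, FO (fun i => A (i + j)) 0 ↔ FO A j := by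
    intro j
    have e : (fun i : Fin (n - 1) => A (0 + Fin.ofNat n (i.1 + 1) + j))
        = fun i : Fin (n - 1) => A (j + Fin.ofNat n (i.1 + 1)) := by
      funext i
      rw [zero_add, add_comm]
    simp only [FO]
    rw [e]
  have c3 : ∀ j, FO A j → Lp (cp A) := by
    intro j hj
    rw [← c7 (j + 1)]
    left
    obtain ⟨m, rfl⟩ := Nat.exists_eq_succ_of_ne_zero (NeZero.ne n)
    have e1 : List.ofFn (fun i : Fin (m + 1) => A (i + (j + 1)))
        = (List.ofFn fun i : Fin m => A (j + Fin.ofNat (m + 1) (i.1 + 1))) ++ [A j] := by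
      rw [List.ofFn_succ', List.concat_eq_append]
      congr 1
      · congr 1
        funext i
        congr 1
        have : (Fin.ofNat (m + 1) (i.1 + 1)) = Fin.castSucc i + 1 := by
          apply Fin.ext
          rw [Fin.coeSucc_eq_succ]
          simp only [Fin.ofNat, Fin.val_succ]
          exact Nat.mod_eq_of_lt (by omega)
        rw [this, ← add_assoc, add_comm (Fin.castSucc i) j, add_assoc]
      · congr 1
        congr 1
        rw [add_comm j 1, ← add_assoc, Fin.last_add_one, zero_add]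
    show (List.ofFn (fun i : Fin (m + 1) => A (i + (j + 1)))).foldl (fun v f => f v) w012 = em
    rw [e1, List.foldl_append]
    have hj' : (List.ofFn fun i : Fin m => A (j + Fin.ofNat (m + 1) (i.1 + 1))).foldl
      (fun v f => f v) w012 = em := hj
    rw [hj']
    exact h.2.1 (A j) (hA j)
  have c4 : Lp (cp A) → Vis {0, 1, 2} ∅ (fun j => vs (A j)) := by
    intro hL
    refine ⟨?_, fun j => Finset.disjoint_empty_right _⟩
    intro s _
    have h1 := (h.2.2.2.2.2.2.2.1 (cp A) c1).1 (Or.inl hL)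
    exact (c2 s).1 (by rw [h1]; exact Finset.mem_univ s)
  refine ⟨c1, c2, c3, c4, ?_, c6, c7⟩
  intro hLp hLm
  have hv := c4 hLp
  by_cases hsing : ∃ j, ∃ p q : Fin 3, p ≠ q ∧ p ∈ vs (A j) ∧ q ∈ vs (A j)
  · obtain ⟨j, p, q, hpq, hp, hq⟩ := hsing
    obtain ⟨r, hqr, hrp⟩ : ∃ r : Fin 3, q ≠ r ∧ r ≠ p := by
      have : ∀ p q : Fin 3, p ≠ q → ∃ r : Fin 3, q ≠ r ∧ r ≠ p := by decide
      exact this p q hpq
    obtain ⟨k, hk⟩ := hv.1 r (by fin_cases r <;> simp)
    refine ⟨p, q, r, j, 0, 0, (k - j : Fin n).1, hpq, hqr, hrp, le_rfl, Nat.zero_le _,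
      (k - j : Fin n).2.le, hp, ?_, ?_, ?_⟩
    · have : j + Fin.ofNat n 0 = j := by
        have := add_ofNat j j
        simpa using this
      rw [this]; exact hq
    · have : j + Fin.ofNat n 0 = j := by
        have := add_ofNat j j
        simpa using this
      rw [this]; exact hp
    · rw [add_ofNat]; exact hk
  · have hne : ∀ (x y : Fin n) (p q : Fin 3), p ≠ q → p ∈ vs (A x) → q ∈ vs (A y) → x ≠ y := by
      intro x y p q hpq hp hq e
      subst e
      exact hsing ⟨x, p, q, hpq, hp, hq⟩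
    have hplus : ∃ x y z : Fin n, 0 ∈ vs (A x) ∧ 1 ∈ vs (A y) ∧ 2 ∈ vs (A z) ∧ Or3 x y z := by
      rcases hLp with h1 | h1 | h1
      · obtain ⟨x, y, z, hxy, hyz, hx, hy, hz⟩ := hit3 h n A hA 0 1 2 w012 rfl h1
        exact ⟨x, y, z, hx, hy, hz, Or.inl ⟨lt_of_le_of_ne hxy (hne _ _ 0 1 (by decide) hx hy),
          lt_of_le_of_ne hyz (hne _ _ 1 2 (by decide) hy hz)⟩⟩
      · obtain ⟨y, z, x, hxy, hyz, hy, hz, hx⟩ := hit3 h n A hA 1 2 0 w120 rfl h1
        exact ⟨x, y, z, hx, hy, hz, Or.inr (Or.inl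
          ⟨lt_of_le_of_ne hxy (hne _ _ 1 2 (by decide) hy hz),
          lt_of_le_of_ne hyz (hne _ _ 2 0 (by decide) hz hx)⟩)⟩
      · obtain ⟨z, x, y, hxy, hyz, hz, hx, hy⟩ := hit3 h n A hA 2 0 1 w201 rfl h1
        exact ⟨x, y, z, hx, hy, hz, Or.inr (Or.inr
          ⟨lt_of_le_of_ne hxy (hne _ _ 2 0 (by decide) hz hx),
          lt_of_le_of_ne hyz (hne _ _ 0 1 (by decide) hx hy)⟩)⟩
    have hminus : ∃ x y z : Fin n, 0 ∈ vs (A x) ∧ 1 ∈ vs (A y) ∧ 2 ∈ vs (A z) ∧ ¬ Or3 x y z := by
      rcases hLm with h1 | h1 | h1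
      · obtain ⟨z, y, x, hxy, hyz, hz, hy, hx⟩ := hit3 h n A hA 2 1 0 w210 rfl h1
        have e1 := lt_of_le_of_ne hxy (hne _ _ 2 1 (by decide) hz hy)
        have e2 := lt_of_le_of_ne hyz (hne _ _ 1 0 (by decide) hy hx)
        refine ⟨x, y, z, hx, hy, hz, ?_⟩
        simp only [Or3, Fin.lt_def] at e1 e2 ⊢
        omega
      · obtain ⟨y, x, z, hxy, hyz, hy, hx, hz⟩ := hit3 h n A hA 1 0 2 w102 rfl h1
        have e1 := lt_of_le_of_ne hxy (hne _ _ 1 0 (by decide) hy hx)
        have e2 := lt_of_le_of_ne hyz (hne _ _ 0 2 (by decide) hx hz)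
        refine ⟨x, y, z, hx, hy, hz, ?_⟩
        simp only [Or3, Fin.lt_def] at e1 e2 ⊢
        omega
      · obtain ⟨x, z, y, hxy, hyz, hx, hz, hy⟩ := hit3 h n A hA 0 2 1 w021 rfl h1
        have e1 := lt_of_le_of_ne hxy (hne _ _ 0 2 (by decide) hx hz)
        have e2 := lt_of_le_of_ne hyz (hne _ _ 2 1 (by decide) hz hy)
        refine ⟨x, y, z, hx, hy, hz, ?_⟩
        simp only [Or3, Fin.lt_def] at e1 e2 ⊢
        omega
    obtain ⟨x, y, z, hx, hy, hz, ho⟩ := hplus
    obtain ⟨x', y', z', hx', hy', hz', ho'⟩ := hminus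
    by_cases h1 : Or3 x' y z
    · by_cases h2 : Or3 x' y' z
      · rw [or_rot, or_rot] at h2 ho'
        exact db1 _ 2 0 1 (by decide) (by decide) (by decide) z z' x' y' hz hz' hx' hy' h2 ho'
          (hne _ _ 2 0 (by decide) hz' hx') (hne _ _ 2 1 (by decide) hz' hy')
      · rw [or_rot] at h1 h2
        exact db1 _ 1 2 0 (by decide) (by decide) (by decide) y y' z x' hy hy' hz hx' h1 h2
          (hne _ _ 1 2 (by decide) hy' hz) (hne _ _ 1 0 (by decide) hy' hx')
    · exact db1 _ 0 1 2 (by decide) (by decide) (by decide) x x' y z hx hx' hy hz ho h1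
        (hne _ _ 0 1 (by decide) hx' hy) (hne _ _ 0 2 (by decide) hx' hz)

end Pool.Agent.XQ.GI.H75
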